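import Pool.Agent.H857.PD.Core
import Pool.Agent.H857.SG.Asm

/-!
# Abelian varieties of odd prime dimension over finite fields: assembly
-/

set_option autoImplicit false

namespace Pool.Agent.H857.PD

open Module Polynomial Pool.Agent.W521.Descent Pool.Agent.W521.Density Pool.Agent.W521.Count
  Pool.Agent.X297.UB Pool.Agent.H857.PB Pool.Agent.H857.PA Pool.Agent.H857.HK Pool.Agent.H857.EF
  Pool.Agent.H857.WT Pool.Agent.H857.SG

/-- The description of the exotic classes in prime dimension. -/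
theorem exotic_structure (h1 : P1) (h3 : P3) (h4 : P4) (h5 : B5) (s3 : S3) (g : ℕ)
    (hg : g.Prime) (hg3 : 3 ≤ g) {q : ℕ} (hq : 1 < q) {f : ℤ[X]} (hf : f ∈ weilPolys q g)
    (hs : Irreducible f) (he : HasExotic q f) :
    OfOddWeilType q g f ∧ ∃ β : Fin g → QB, Roots q g f β ∧ Weil q g β := by
  obtain ⟨α, hα, htr⟩ := h1 q g f (by omega) hg3 hf hs
  obtain ⟨L, hL0, hLr, hLp, hLpair⟩ := h5 q g hq f hf he
  have hroot : ∀ z : ℂ, aeval z f = 0 → ∃ i, z = (α i : ℂ) ∨ z = q / (α i : ℂ) := by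
    intro z hz
    have h0 : (f.map (Int.castRingHom ℂ)).eval z = 0 := by
      rw [eval_map]
      exact hz
    rw [hα.map, eval_prod, Finset.prod_eq_zero_iff] at h0
    obtain ⟨i, -, hi⟩ := h0
    refine ⟨i, ?_⟩
    rw [eval_mul, mul_eq_zero] at hi
    rcases hi with hi | hi
    · left
      rw [eval_sub, eval_X, eval_C, sub_eq_zero] at hi
      exact hi
    · right
      rw [eval_sub, eval_X, eval_C, sub_eq_zero] at hi
      exact hi
  obtain ⟨e, he0, her, hev, hep, het⟩ := s3 (Fin g) q hq (fun i => (α i : ℂ)) hα.norm L hL0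
    (fun z hz => hroot z (hLr z hz)) hLp hLpair
  obtain ⟨β, hβ, hw⟩ := h3 q g f α e hq hg hg3 hα htr ⟨he0, her, hev, hep, het⟩
  have hR : Roots q g f β := by
    refine ⟨hw.norm, ?_⟩
    rw [hα.map]
    refine Finset.prod_congr rfl fun i _ => ?_
    rcases hβ i with h | h
    · rw [h]
    · have h0 : (α i : ℂ) ≠ 0 := by
        intro h0
        have := hα.norm i
        rw [h0, norm_zero, zero_pow two_ne_zero] at this
        exact (by omega : q ≠ 0) (by exact_mod_cast this.symm)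
      have hq0 : (q : ℂ) ≠ 0 := by exact_mod_cast (by omega : q ≠ 0)
      have h2 : (β i : ℂ) = (q : ℂ) / (α i : ℂ) := by
        rw [h]
        push_cast
        rfl
      rw [h2, div_div_cancel₀ hq0]
      exact mul_comm _ _
  exact ⟨h4 q g f β hq hg3 hR hw, β, hR, hw⟩

/-- The upper bound. -/
theorem upper (h17 : P17) (h18 : P18) (r : ℕ) (hr : 1 ≤ r) : ∃ C : ℝ, 0 < C ∧
    ∀ (p : ℕ) [Fact p.Prime] (a : ℕ), 0 < a →
      ({f ∈ newtonWeil p a (2 * r + 1) | OfOddWeilType (p ^ a) (2 * r + 1) f}.ncard : ℝ) ≤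
        C * Real.sqrt ((p : ℝ) ^ a) ^ oddOrder (2 * r + 1) := by
  classical
  obtain ⟨C, hC, h⟩ := h18 r hr
  refine ⟨C, hC, fun p _ a ha => ?_⟩
  have hp : p.Prime := Fact.out
  have hq : 0 < p ^ a := pow_pos hp.pos a
  obtain ⟨hfin, hcard⟩ := h (p ^ a) hq
  have hcast : Real.sqrt ((p ^ a : ℕ) : ℝ) = Real.sqrt ((p : ℝ) ^ a) := by push_cast; rfl
  rw [hcast] at hcard
  refine le_trans ?_ hcard
  set G : ℂ × (Fin r → ℂ) → ℤ[X] := fun t =>
    if h : ∃ f : ℤ[X], f.map (Int.castRingHom ℂ) =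
      opol r (p ^ a) t.1 t.2 * (opol r (p ^ a) t.1 t.2).map (starRingEnd ℂ) then h.choose else 0
    with hG
  have hsub : {f ∈ newtonWeil p a (2 * r + 1) | OfOddWeilType (p ^ a) (2 * r + 1) f} ⊆
      G '' {t : ℂ × (Fin r → ℂ) | CondO r (p ^ a) t.1 t.2} := by
    rintro f ⟨hf1, hf2⟩
    obtain ⟨ω, b, hc, he⟩ := h17 r (p ^ a) f hr hq hf1.1 hf2
    refine ⟨(ω, b), hc, ?_⟩
    have hex : ∃ f : ℤ[X], f.map (Int.castRingHom ℂ) =
      opol r (p ^ a) ω b * (opol r (p ^ a) ω b).map (starRingEnd ℂ) := ⟨f, he⟩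
    have h1 : G (ω, b) = hex.choose := by
      simp only [hG]
      rw [dif_pos hex]
    rw [h1]
    exact Polynomial.map_injective _ (Int.cast_injective (α := ℂ))
      (hex.choose_spec.trans he.symm)
  have h1 := (Set.ncard_le_ncard hsub (hfin.image _)).trans (Set.ncard_image_le hfin)
  exact_mod_cast h1

/-- The conclusion for the generic polynomials of odd Weil type. -/
structure IsGoodO (p : ℕ) [Fact p.Prime] (b g : ℕ) (f : ℤ[X]) : Prop where
  coeff : ¬ (p : ℤ) ∣ f.coeff (g + 1)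
  irreducible : Irreducible f
  honda : HondaTate p (2 * b) f
  weil : OfOddWeilType (p ^ (2 * b)) g f
  has : HasExotic (p ^ (2 * b)) f
  exotic : ExoticInCodim (p ^ (2 * b)) g (f ^ 2)
  generated : GeneratedInCodim g (p ^ (2 * b)) f
  tate : TateFromCodim g (p ^ (2 * b)) f

/-- There are many polynomials of odd Weil type. -/
def Lower (g p : ℕ) [Fact p.Prime] (C : ℝ) : Prop := ∀ b : ℕ, 0 < b → C < (p : ℝ) ^ b →
  ((p : ℝ) ^ b) ^ oddOrder g ≤
    C * ({f ∈ newtonWeil p (2 * b) g | IsGoodO p b g f}.ncard : ℝ)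

/-- The lower bound. -/
theorem lower (h3 : O3) (h3n : O3n) (h8 : O8) (h9 : O9) (h10 : O10) (h11 : O11L) (h11e : O11E)
    (h12 : O12) (h13 : W13) (h14 : W14) (h16 : O16) (h17a : O17a) (h17b : O17b) (s18 : S18)
    (r : ℕ) (hr : 1 ≤ r) (hg : (2 * r + 1).Prime) (p : ℕ) [Fact p.Prime] (C : ℝ) (hC0 : 0 < C)
    (h : ManyO r p C) : Lower (2 * r + 1) p (C * 2 ^ (2 * (2 * r + 1))) := by
  classical
  intro b hb0 hCq
  have hp : p.Prime := Fact.out
  have hs : 0 < p ^ b := pow_pos hp.pos b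
  have hs1 : 1 < p ^ b := Nat.one_lt_pow hb0.ne' hp.one_lt
  have hsq : (p ^ b) ^ 2 = p ^ (2 * b) := by rw [← pow_mul, mul_comm]
  have hq1 : 1 < p ^ (2 * b) := Nat.one_lt_pow (by omega) hp.one_lt
  have hC1 : C ≤ C * 2 ^ (2 * (2 * r + 1)) :=
    le_mul_of_one_le_right hC0.le (one_le_pow₀ (by norm_num))
  obtain ⟨S, hS1, hS2, hS3⟩ := h b hb0 (hC1.trans_lt hCq)
  set E := {f ∈ newtonWeil p (2 * b) (2 * r + 1) | IsGoodO p b (2 * r + 1) f} with hE
  have hEfin : E.Finite := newtonWeil_finite.subset fun f hf => hf.1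
  have key : ∀ t ∈ S, ∃ (f : ℤ[X]) (z : Fin (2 * r + 1) → QB),
      IsNormO r (p ^ b) t.1 t.2.1 t.2.2 f z ∧ f ∈ E := by
    intro t ht
    obtain ⟨hd, hnsq, hsm, hxy, hgood⟩ := hS2 t ht
    obtain ⟨f, z, hn, hw, hc1, hc2⟩ := h3 r (p ^ b) t.1 t.2.1 t.2.2 hr hs hsm
    have hpp : Prime (p : ℤ) := Nat.prime_iff_prime_int.1 hp
    have hc3 : ¬ (p : ℤ) ∣ f.coeff (2 * r + 1 + 1) := by
      intro h1
      have hj : ((⟨r - 1, by omega⟩ : Fin r) : ℕ) + 1 = r := by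
        change r - 1 + 1 = r
        omega
      apply hxy ⟨r - 1, by omega⟩ hj
      have h2 : (p : ℤ) ∣ f.coeff (2 * r + 2) -
          (t.2.1 ⟨r - 1, by omega⟩ ^ 2 + (t.1 : ℤ) * t.2.2 ⟨r - 1, by omega⟩ ^ 2) := by
        refine dvd_trans ?_ (hc2 ⟨r - 1, by omega⟩ hj)
        push_cast
        exact dvd_pow_self _ hb0.ne'
      have h5 := dvd_sub h1 h2
      rwa [sub_sub_cancel] at h5
    have hgen : GenO r (p ^ b) z :=
      h8 r (p ^ b) _ _ _ f z hr hg hs1 hd hn hw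
        ⟨p, hp, dvd_pow_self _ hb0.ne', hc3⟩ hgood
    have hroot : ∀ i, aeval (z i : ℂ) f = 0 := by
      intro i
      have h1 : (hO r (p ^ b) t.1 t.2.1 t.2.2).eval (z i : ℂ) = 0 := by
        rw [← hn.prod, eval_prod]
        exact Finset.prod_eq_zero (Finset.mem_univ i) (by simp)
      rw [aeval_def, eval₂_eq_eval_map]
      change eval (z i : ℂ) (f.map (Int.castRingHom ℂ)) = 0
      rw [hn.map, eval_mul, h1, zero_mul]
    have hirr : Irreducible f := h9 r (p ^ b) _ _ _ f z hr hs1 hd hn hw hgen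
    have hrel := h12 r (p ^ b) _ _ _ f z hr hs1 hd hn hw hgen
    have hweil := h10 r (p ^ b) _ _ _ f z hr hs1 hd hn hw hgen
    have hexl := h11 r (p ^ b) f z hr hs1 hroot hgen
    have hexo := h11e r (p ^ b) f z hr hs1 hroot hgen
    have hcb : (p : ℤ) ^ b ∣ f.coeff (2 * r + 1) := by
      have := hc1
      push_cast at this
      exact this
    rw [hsq] at hw hrel hweil hexl hexo
    have hnr := h17b r (p ^ b) _ _ _ f z p hd hn hw.1 hirr hnsq
    refine ⟨f, z, hn, ?_, ?_⟩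
    · exact h3n p b (2 * r + 1) f hb0 (by omega) hw hcb hc3
    · exact ⟨hc3, hirr, h17a p b (2 * r + 1) f hb0 (by omega) hw hcb hc3 hnr, hweil,
        s18 (p ^ (2 * b)) hq1 f hw.2.2.2 hexl, hexo,
        h13 (2 * r + 1) (p ^ (2 * b)) f (by omega) hq1 hrel,
        h14 (2 * r + 1) (p ^ (2 * b)) f (by omega) hq1 hrel⟩
  choose! F z hF using key
  have hcard : S.card ≤ 2 ^ (2 * (2 * r + 1)) * hEfin.toFinset.card := by
    refine Finset.card_le_mul_card_image_of_maps_to (f := F) (fun t ht => ?_) _ fun f hf => ?_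
    · rw [Set.Finite.mem_toFinset]
      exact (hF t ht).2
    · rw [Set.Finite.mem_toFinset] at hf
      obtain ⟨hfin, hle⟩ := h16 (2 * (2 * r + 1)) f hf.1.1.1.ne_zero hf.1.1.2.1
      refine le_trans ?_ hle
      rw [← Set.ncard_coe_finset]
      refine Set.ncard_le_ncard_of_injOn (fun t : ℕ × (Fin r → ℤ) × (Fin r → ℤ) =>
        hO r (p ^ b) t.1 t.2.1 t.2.2) ?_ ?_ hfin
      · intro t ht
        rw [Finset.mem_coe, Finset.mem_filter] at ht
        have hn := (hF t ht.1).1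
        refine ⟨?_, ?_⟩
        · rw [← hn.prod]
          exact monic_prod_of_monic _ _ fun i _ => monic_X_sub_C _
        · rw [← ht.2, hn.map]
          exact dvd_mul_right _ _
      · intro t ht t' ht' htt
        rw [Finset.mem_coe, Finset.mem_filter] at ht ht'
        exact hS3 ht.1 ht'.1 htt
  have hE2 : E.ncard = hEfin.toFinset.card := Set.ncard_eq_toFinset_card _ hEfin
  rw [← hE2] at hcard
  have hcard' : (S.card : ℝ) ≤ 2 ^ (2 * (2 * r + 1)) * (E.ncard : ℝ) := by exact_mod_cast hcard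
  calc ((p : ℝ) ^ b) ^ oddOrder (2 * r + 1) ≤ C * (S.card : ℝ) := hS1
    _ ≤ C * (2 ^ (2 * (2 * r + 1)) * (E.ncard : ℝ)) := mul_le_mul_of_nonneg_left hcard' hC0.le
    _ = C * 2 ^ (2 * (2 * r + 1)) * (E.ncard : ℝ) := by ring

/-- The main theorem, upper bounds and structure. -/
theorem main (h1 : P1) (h3 : P3) (h4 : P4) (h5 : B5) (h6 : P6) (h7a : B7a) (h7b : B7b)
    (h7c : B7c) (h8 : P8) (h9 : P9) (s3 : S3) (s13 : S13) (s17 : S17) (s18 : S18) (w13 : W13)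
    (w14 : W14) (h17 : P17) (h18 : P18) (g : ℕ) (hgp : g.Prime) (hg3 : 3 ≤ g) :
    ∃ C : ℝ, 0 < C ∧ ∃ M : ℕ, 0 < M ∧ ∀ (p : ℕ) [Fact p.Prime] (a : ℕ), 0 < a →
      ((newtonWeil p a g).Finite ∧
        Real.sqrt ((p : ℝ) ^ a) ^ (g * (g + 1) / 2) ≤ C * ((newtonWeil p a g).ncard : ℝ) ∧
        ((newtonWeil p a g).ncard : ℝ) ≤ C * Real.sqrt ((p : ℝ) ^ a) ^ (g * (g + 1) / 2) ∧
        ({f ∈ newtonWeil p a g | ¬ Irreducible f}.ncard : ℝ) ≤
          C * Real.sqrt ((p : ℝ) ^ a) ^ (g * (g - 1) / 2 + 1)) ∧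
      (∀ f ∈ newtonWeil p a g, ¬ HasExotic (p ^ a) f → ∃ F : ℤ[X], IsPowerPoly f M F ∧
        PolesOfPowers ((p ^ a) ^ M) F ∧ TateForPowers ((p ^ a) ^ M) F) ∧
      (∀ f ∈ newtonWeil p a g, Irreducible f → HasExotic (p ^ a) f →
        OfOddWeilType (p ^ a) g f ∧ ∃ F : ℤ[X], IsPowerPoly f M F ∧
          GeneratedInCodim g ((p ^ a) ^ M) F ∧ TateFromCodim g ((p ^ a) ^ M) F) ∧
      ({f ∈ newtonWeil p a g | OfOddWeilType (p ^ a) g f}.ncard : ℝ) ≤
        C * Real.sqrt ((p : ℝ) ^ a) ^ oddOrder g ∧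
      ({f ∈ newtonWeil p a g | Irreducible f ∧ HasExotic (p ^ a) f}.ncard : ℝ) ≤
        C * Real.sqrt ((p : ℝ) ^ a) ^ oddOrder g ∧
      (g ≤ 5 → ({f ∈ newtonWeil p a g | HasExotic (p ^ a) f}.ncard : ℝ) ≤
        C * Real.sqrt ((p : ℝ) ^ a) ^ oddOrder g) := by
  classical
  have hodd : Odd g := hgp.odd_of_ne_two (by omega)
  obtain ⟨r, hr⟩ := hodd
  have hr1 : 1 ≤ r := by omega
  obtain ⟨C₁, hC₁, hu⟩ := upper h17 h18 r hr1
  rw [← hr] at hu
  obtain ⟨C₂, hC₂, hred⟩ := h8 g hg3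
  obtain ⟨m₀, hm₀⟩ := h7a g
  have hkill : Kills g (12 * m₀) := hm₀.mul (by norm_num)
  obtain ⟨C₅, hC₅, h95⟩ : ∃ C : ℝ, 0 < C ∧ (g ≤ 5 → ∀ (p : ℕ) [Fact p.Prime] (a : ℕ), 0 < a →
      ({f ∈ newtonWeil p a g | ¬ Irreducible f ∧ ExL (p ^ a) f}.ncard : ℝ) ≤
        C * Real.sqrt ((p : ℝ) ^ a) ^ oddOrder g) := by
    by_cases h : g ≤ 5
    · have hg35 : g = 3 ∨ g = 5 := by
        have : g ≠ 4 := by
          rintro rfl
          exact absurd hgp (by norm_num)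
        omega
      obtain ⟨C, hC, hh⟩ := h9 g hg35
      exact ⟨C, hC, fun _ => hh⟩
    · exact ⟨1, one_pos, fun h' => absurd h' h⟩
  have htot : tot g = g * (g + 1) / 2 := rfl
  set C₃ : ℝ := 4 * 2 ^ (g ^ 2) with hC₃
  set C₄ : ℝ := (3 * (4 : ℝ) ^ g) ^ g with hC₄
  have hC₃0 : 0 < C₃ := by positivity
  have hC₄0 : 0 < C₄ := by positivity
  refine ⟨C₁ + C₂ + C₃ + C₄ + C₅, by positivity, 12 * m₀, hkill.1, fun p _ a ha => ?_⟩
  have hp : p.Prime := Fact.out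
  have hq : 0 < p ^ a := pow_pos hp.pos a
  have hq1 : 1 < p ^ a := Nat.one_lt_pow ha.ne' hp.one_lt
  have hlow := newtonWeil_lower (p := p) ha g
  rw [htot] at hlow
  have hn0 : (0 : ℝ) ≤ ((newtonWeil p a g).ncard : ℝ) := Nat.cast_nonneg _
  have hst : ∀ f ∈ newtonWeil p a g, Irreducible f → HasExotic (p ^ a) f →
      OfOddWeilType (p ^ a) g f := fun f hf hi hex =>
    (exotic_structure h1 h3 h4 h5 s3 g hgp hg3 hq1 hf.1 hi hex).1
  have hirr : ({f ∈ newtonWeil p a g | Irreducible f ∧ HasExotic (p ^ a) f}.ncard : ℝ) ≤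
      C₁ * Real.sqrt ((p : ℝ) ^ a) ^ oddOrder g := by
    have hsub : {f ∈ newtonWeil p a g | Irreducible f ∧ HasExotic (p ^ a) f} ⊆
        {f ∈ newtonWeil p a g | OfOddWeilType (p ^ a) g f} := by
      rintro f ⟨hf, hs, hex⟩
      exact ⟨hf, hst f hf hs hex⟩
    have h1 := Set.ncard_le_ncard hsub (newtonWeil_finite.subset fun f hf => hf.1)
    have h2 : ({f ∈ newtonWeil p a g | Irreducible f ∧ HasExotic (p ^ a) f}.ncard : ℝ) ≤
        ({f ∈ newtonWeil p a g | OfOddWeilType (p ^ a) g f}.ncard : ℝ) := by exact_mod_cast h1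
    exact h2.trans (hu p a ha)
  refine ⟨⟨newtonWeil_finite, ?_, ?_, ?_⟩, ?_, ?_, ?_, ?_, fun hg5 => ?_⟩
  · refine hlow.trans (mul_le_mul_of_nonneg_right ?_ hn0)
    linarith
  · have h1 := Pool.Agent.H740.EF.newtonWeil_upper (p := p) (a := a) g
    rw [htot] at h1
    refine h1.trans (mul_le_mul_of_nonneg_right ?_ (by positivity))
    linarith
  · refine (hred p a ha).trans (mul_le_mul_of_nonneg_right ?_ (by positivity))
    linarith
  · intro f hf hex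
    have hnl : ¬ ExL (p ^ a) f := fun h => hex (s18 (p ^ a) hq1 f hf.1.2.2.2 h)
    obtain ⟨F, hF⟩ := s13 f (12 * m₀) hf.1.1 hkill.1
    exact ⟨F, hF, h7b (p ^ a) g (12 * m₀) hq1 hkill f hf.1 hnl F hF,
      s17 ((p ^ a) ^ (12 * m₀)) F (Nat.one_lt_pow hkill.1.ne' hq1)
        (h7c (p ^ a) g (12 * m₀) hq1 hkill f hf.1 hnl F hF)⟩
  · intro f hf hs hex
    obtain ⟨h10, β, hR, hW⟩ := exotic_structure h1 h3 h4 h5 s3 g hgp hg3 hq1 hf.1 hs hex
    obtain ⟨F, hF⟩ := s13 f (12 * m₀) hf.1.1 hkill.1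
    have hrel := h6 (p ^ a) g (12 * m₀) f F β hq1 hg3 ⟨r, hr⟩ hkill.1
      (dvd_mul_right _ _) hf.1 hR hW hF
    have hQ : 1 < (p ^ a) ^ (12 * m₀) := Nat.one_lt_pow hkill.1.ne' hq1
    exact ⟨h10, F, hF, w13 g _ F (by omega) hQ hrel, w14 g _ F (by omega) hQ hrel⟩
  · refine (hu p a ha).trans (mul_le_mul_of_nonneg_right ?_ (by positivity))
    linarith
  · refine hirr.trans (mul_le_mul_of_nonneg_right ?_ (by positivity))
    linarith
  · have hsub : {f ∈ newtonWeil p a g | HasExotic (p ^ a) f} ⊆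
        {f ∈ newtonWeil p a g | Irreducible f ∧ HasExotic (p ^ a) f} ∪
        {f ∈ newtonWeil p a g | ¬ Irreducible f ∧ ExL (p ^ a) f} := by
      rintro f ⟨hf, hex⟩
      by_cases hi : Irreducible f
      · exact Or.inl ⟨hf, hi, hex⟩
      · exact Or.inr ⟨hf, hi, h5 (p ^ a) g hq1 f hf.1 hex⟩
    have h1 := (Set.ncard_le_ncard hsub ((newtonWeil_finite.subset fun f hf => hf.1).union
      (newtonWeil_finite.subset fun f hf => hf.1))).trans (Set.ncard_union_le _ _)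
    have h2 : ({f ∈ newtonWeil p a g | HasExotic (p ^ a) f}.ncard : ℝ) ≤
        ({f ∈ newtonWeil p a g | Irreducible f ∧ HasExotic (p ^ a) f}.ncard : ℝ) +
        ({f ∈ newtonWeil p a g | ¬ Irreducible f ∧ ExL (p ^ a) f}.ncard : ℝ) := by
      exact_mod_cast h1
    have h6 := h95 hg5 p a ha
    have hpos : 0 ≤ Real.sqrt ((p : ℝ) ^ a) ^ oddOrder g := by positivity
    calc _ ≤ _ := h2
      _ ≤ C₁ * Real.sqrt ((p : ℝ) ^ a) ^ oddOrder g +
          C₅ * Real.sqrt ((p : ℝ) ^ a) ^ oddOrder g := add_le_add hirr h6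
      _ = (C₁ + C₅) * Real.sqrt ((p : ℝ) ^ a) ^ oddOrder g := by ring
      _ ≤ _ := mul_le_mul_of_nonneg_right (by linarith) hpos

end Pool.Agent.H857.PD
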