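import Pool.Agent.H857.PD.Defs
import Pool.Agent.H857.SG.Core

/-!
# Abelian varieties of odd prime dimension over finite fields: the list of the statements
-/

set_option autoImplicit false

namespace Pool.Agent.H857.PD

open Module Polynomial Pool.Agent.W521.Descent Pool.Agent.W521.Density Pool.Agent.W521.Count
  Pool.Agent.X297.UB Pool.Agent.H857.PB Pool.Agent.H857.PA Pool.Agent.H857.HK Pool.Agent.H857.EF
  Pool.Agent.H857.WT Pool.Agent.H857.SG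

/-- The distinct algebraic numbers `θ i` are conjugate. -/
def Tr {g : ℕ} (θ : Fin g → QB) : Prop :=
  Function.Injective θ ∧ ∀ i j, ∃ σ : QB ≃ₐ[ℚ] QB, σ (θ i) = θ j

/-- The self-reciprocal polynomial of degree `2 r + 1` with the coefficients `u j`, `v j`. -/
noncomputable def hpolyO {R : Type} [CommRing R] (r : ℕ) (s : R) (u v : Fin r → R) : R[X] :=
  X ^ (2 * r + 1) + ∑ j : Fin r, (C (u j) * X ^ (2 * r - (j : ℕ)) +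
    C (s ^ (2 * (r - (j : ℕ)) - 1) * v j) * X ^ ((j : ℕ) + 1)) + C (s ^ (2 * r + 1))

/-- The factor over `ℚ(√-d)`. -/
noncomputable def hO (r s d : ℕ) (x y : Fin r → ℤ) : ℂ[X] :=
  hpolyO r (s : ℂ) (al d x y) (fun j => (starRingEnd ℂ) (al d x y j))

/-- The coefficients are small. -/
def SmallO (r s d : ℕ) (x y : Fin r → ℤ) : Prop :=
  ∀ j, ((r : ℝ) + 1) * ‖al d x y j‖ ≤ (s : ℝ) ^ ((j : ℕ) + 1)

/-- There is a prime modulo which `hO` is irreducible. -/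
def GoodI (r s d : ℕ) (x y : Fin r → ℤ) : Prop :=
  ∃ (l : ℕ) (_ : Fact l.Prime) (t : ZMod l), l ≠ 2 ∧ (s : ZMod l) ≠ 0 ∧ t ≠ 0 ∧
    t ^ 2 = -(d : ZMod l) ∧
    Irreducible (hpolyO r (s : ZMod l) (fun j => (x j : ZMod l) + t * y j)
      (fun j => (x j : ZMod l) - t * y j))

/-- `f` is the product of `hO` and its conjugate, and the `z i` are the roots of `hO`. -/
structure IsNormO (r s d : ℕ) (x y : Fin r → ℤ) (f : ℤ[X]) (z : Fin (2 * r + 1) → QB) : Prop where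
  map : f.map (Int.castRingHom ℂ) = hO r s d x y * (hO r s d x y).map (starRingEnd ℂ)
  prod : ∏ i, (X - C (z i : ℂ)) = hO r s d x y
  norm : ∀ i, ‖(z i : ℂ)‖ ^ 2 = ((s ^ 2 : ℕ) : ℝ)
  inj : Function.Injective z

/-- The roots `z i` have no relations but those with all exponents equal, and are conjugate. -/
structure GenO (r s : ℕ) (z : Fin (2 * r + 1) → QB) : Prop where
  norm : ∀ i, ‖(z i : ℂ)‖ ^ 2 = ((s ^ 2 : ℕ) : ℝ)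
  inj : Function.Injective z
  prod : ∏ i, (z i : ℂ) = -(s : ℂ) ^ (2 * r + 1)
  rel : ∀ e : Fin (2 * r + 1) → ℤ, RelZ (s ^ 2) (fun i => (z i : ℂ)) e → ∀ i j, e i = e j
  trans : ∀ i j, ∃ σ : QB ≃ₐ[ℚ] QB, σ (z i) = z j

/-- A self-reciprocal polynomial of degree `2 r + 1` with the constant term `ω`. -/
noncomputable def opol (r q : ℕ) (ω : ℂ) (a : Fin r → ℂ) : ℂ[X] :=
  X ^ (2 * r + 1) + ∑ j : Fin r, (C (a j) * X ^ (2 * r - (j : ℕ)) +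
    C (ω * ((q : ℂ) ^ ((j : ℕ) + 1))⁻¹ * (starRingEnd ℂ) (a j)) * X ^ ((j : ℕ) + 1)) + C ω

/-- The conditions for the coefficients of the factors of the polynomials of Weil type. -/
structure CondO (r q : ℕ) (ω : ℂ) (a : Fin r → ℂ) : Prop where
  re : ∀ j, ∃ n : ℤ, a j + (starRingEnd ℂ) (a j) = n
  im : ∀ i j, ∃ n : ℤ, (a i - (starRingEnd ℂ) (a i)) * (a j - (starRingEnd ℂ) (a j)) = n
  le : ∀ j, ‖a j‖ ≤ 4 ^ (r + 1) * Real.sqrt q ^ ((j : ℕ) + 1)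
  omega : ω ^ 24 = (q : ℂ) ^ (12 * (2 * r + 1))

/-! ### The statements -/

/-- P1: the roots of the irreducible Weil polynomials. -/
def P1 : Prop := ∀ (q g : ℕ) (f : ℤ[X]), 0 < q → 3 ≤ g → f ∈ weilPolys q g → Irreducible f →
  ∃ α : Fin g → QB, Roots q g f α ∧ Tr (fun i => α i + (q : QB) / α i)

/-- P2: groups of signed permutations in prime degree. -/
def P2 : Prop := ∀ (g : ℕ), g.Prime → 3 ≤ g → ∀ (G : Set (Equiv.Perm (Fin g) × (Fin g → ℤ)))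
  (R : AddSubgroup (Fin g → ℤ)) (e : Fin g → ℤ),
  (∀ t ∈ G, ∀ i, t.2 i = 1 ∨ t.2 i = -1) →
  (∀ t ∈ G, ∀ u ∈ G, (u.1 * t.1, fun i => t.2 i * u.2 (t.1 i)) ∈ G) →
  (∀ i j, ∃ t ∈ G, t.1 i = j) →
  (1, fun _ => -1) ∈ G →
  (∀ t ∈ G, ∀ x ∈ R, (fun i => t.2 i * x (t.1 i)) ∈ R) →
  (∀ (n : ℤ) (x : Fin g → ℤ), n ≠ 0 → n • x ∈ R → x ∈ R) → Exo (fun x => x ∈ R) e →
  ∃ c : Fin g → ℤ, (∀ i, c i = 1 ∨ c i = -1) ∧
    (∀ t ∈ G, (∀ i, t.2 i * c (t.1 i) = c i) ∨ ∀ i, t.2 i * c (t.1 i) = -c i) ∧ c ∈ R ∧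
    ∀ x ∈ R, ∃ n : ℤ, x = n • c

/-- P3: exotic relations in prime dimension. -/
def P3 : Prop := ∀ (q g : ℕ) (f : ℤ[X]) (α : Fin g → QB) (e : Fin g → ℤ), 1 < q → g.Prime →
  3 ≤ g → Roots q g f α → Tr (fun i => α i + (q : QB) / α i) →
  Exo (fun x => RelZ q (fun i => (α i : ℂ)) x) e →
  ∃ β : Fin g → QB, (∀ i, β i = α i ∨ β i = (q : QB) / α i) ∧ Weil q g β

/-- P4: exotic relations in prime dimension come from Weil classes. -/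
def P4 : Prop := ∀ (q g : ℕ) (f : ℤ[X]) (β : Fin g → QB), 1 < q → 3 ≤ g →
  Roots q g f β → Weil q g β → OfOddWeilType q g f

/-- P6: the structure of the Tate classes in the exotic case. -/
def P6 : Prop := ∀ (q g M : ℕ) (f F : ℤ[X]) (β : Fin g → QB), 1 < q → 3 ≤ g → Odd g → 0 < M →
  12 ∣ M → f ∈ weilPolys q g → Roots q g f β → Weil q g β → IsPowerPoly f M F →
  NoRelM g F (q ^ M)

/-- P8a: reducible Weil polynomials. -/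
def P8a : Prop := ∀ (q g : ℕ), 0 < q → 3 ≤ g → ∀ x : Fin g → ℤ, wp q g x ∈ weilPolys q g →
  ¬ Irreducible (wp q g x) → ∃ (n m : ℕ) (y : Fin n → ℤ) (z : Fin m → ℤ), 1 ≤ n ∧ n ≤ m ∧
    n + m = g ∧ wp q g x = wp q n y * wp q m z ∧ wp q n y ∈ weilPolys q n ∧
    wp q m z ∈ weilPolys q m

/-- P8: the number of the reducible Weil polynomials. -/
def P8 : Prop := ∀ g : ℕ, 3 ≤ g → ∃ C : ℝ, 0 < C ∧ ∀ (p : ℕ) [Fact p.Prime] (a : ℕ), 0 < a →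
  ({f ∈ newtonWeil p a g | ¬ Irreducible f}.ncard : ℝ) ≤
    C * Real.sqrt ((p : ℝ) ^ a) ^ (g * (g - 1) / 2 + 1)

/-- P10: no exotic relations for irreducible real Weil polynomials of degree two. -/
def P10 : Prop := ∀ (q : ℕ) (y : Fin 2 → ℤ) (e : Fin 2 → ℤ), 1 < q →
  wp q 2 y ∈ weilPolys q 2 → Irreducible (mkPoly 2 y) →
  ¬ Exo (fun x => RelZ q (labA q 2 y) x) e

/-- P9: the reducible Weil polynomials with exotic relations in dimensions three and five. -/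
def P9 : Prop := ∀ g : ℕ, g = 3 ∨ g = 5 → ∃ C : ℝ, 0 < C ∧ ∀ (p : ℕ) [Fact p.Prime] (a : ℕ),
  0 < a → ({f ∈ newtonWeil p a g | ¬ Irreducible f ∧ ExL (p ^ a) f}.ncard : ℝ) ≤
    C * Real.sqrt ((p : ℝ) ^ a) ^ oddOrder g

/-- P17: the factors of the polynomials of Weil type. -/
def P17 : Prop := ∀ (r q : ℕ) (f : ℤ[X]), 1 ≤ r → 0 < q → f ∈ weilPolys q (2 * r + 1) →
  OfOddWeilType q (2 * r + 1) f → ∃ (ω : ℂ) (a : Fin r → ℂ), CondO r q ω a ∧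
    f.map (Int.castRingHom ℂ) = opol r q ω a * (opol r q ω a).map (starRingEnd ℂ)

/-- P18: the number of the factors. -/
def P18 : Prop := ∀ r : ℕ, 1 ≤ r → ∃ C : ℝ, 0 < C ∧ ∀ q : ℕ, 0 < q →
  {t : ℂ × (Fin r → ℂ) | CondO r q t.1 t.2}.Finite ∧
  ({t : ℂ × (Fin r → ℂ) | CondO r q t.1 t.2}.ncard : ℝ) ≤
    C * Real.sqrt q ^ oddOrder (2 * r + 1)

/-- O1: the roots of `hpolyO` with small coefficients lie on the circle. -/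
def O1 : Prop := ∀ (r s : ℕ) (a : Fin r → ℂ), 0 < s →
  (∀ j, ((r : ℝ) + 1) * ‖a j‖ ≤ (s : ℝ) ^ ((j : ℕ) + 1)) →
  ∃ z : Fin (2 * r + 1) → ℂ, Function.Injective z ∧ (∀ i, ‖z i‖ = s) ∧
    ∏ i, (X - C (z i)) = hpolyO r (s : ℂ) a (fun j => (starRingEnd ℂ) (a j))

/-- O2: the norm of `hO` has integral coefficients. -/
def O2 : Prop := ∀ (r s d : ℕ) (x y : Fin r → ℤ), 1 ≤ r → ∃ f : ℤ[X], f.Monic ∧
  f.natDegree = 2 * (2 * r + 1) ∧ f.coeff 0 = ((s ^ 2 : ℕ) : ℤ) ^ (2 * r + 1) ∧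
  (s : ℤ) ∣ f.coeff (2 * r + 1) ∧
  (∀ j : Fin r, (j : ℕ) + 1 = r → (s : ℤ) ∣ f.coeff (2 * r + 2) - (x j ^ 2 + d * y j ^ 2)) ∧
  f.map (Int.castRingHom ℂ) = hO r s d x y * (hO r s d x y).map (starRingEnd ℂ)

/-- O3: small parameters give Weil polynomials. -/
def O3 : Prop := ∀ (r s d : ℕ) (x y : Fin r → ℤ), 1 ≤ r → 0 < s → SmallO r s d x y →
  ∃ (f : ℤ[X]) (z : Fin (2 * r + 1) → QB), IsNormO r s d x y f z ∧
    f ∈ weilPolys (s ^ 2) (2 * r + 1) ∧ (s : ℤ) ∣ f.coeff (2 * r + 1) ∧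
    ∀ j : Fin r, (j : ℕ) + 1 = r → (s : ℤ) ∣ f.coeff (2 * r + 2) - (x j ^ 2 + d * y j ^ 2)

/-- O3r: the slopes of the roots of almost ordinary Weil polynomials. -/
def O3r : Prop := ∀ (p : ℕ) [Fact p.Prime] (b g : ℕ) (f : ℤ[X]), 0 < b → 2 ≤ g →
  f ∈ weilPolys (p ^ (2 * b)) g → (p : ℤ) ^ b ∣ f.coeff g → ¬ (p : ℤ) ∣ f.coeff (g + 1) →
  slopeCount p f ((p : ℝ) ^ (2 * b)) 0 = g - 1 ∧
  slopeCount p f ((p : ℝ) ^ (2 * b)) (1 / 2) = 2 ∧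
  slopeCount p f ((p : ℝ) ^ (2 * b)) 1 = g - 1

/-- O3n: the Newton polygons of almost ordinary Weil polynomials. -/
def O3n : Prop := ∀ (p : ℕ) [Fact p.Prime] (b g : ℕ) (f : ℤ[X]), 0 < b → 2 ≤ g →
  f ∈ weilPolys (p ^ (2 * b)) g → (p : ℤ) ^ b ∣ f.coeff g → ¬ (p : ℤ) ∣ f.coeff (g + 1) →
  f ∈ newtonWeil p (2 * b) g

/-- O4I: `hpolyO` can be irreducible. -/
def O4I : Prop := ∀ (l : ℕ) [Fact l.Prime], 3 ≤ l → ∀ r : ℕ, 1 ≤ r → (2 * r + 1).Prime →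
  ∀ s : ZMod l, s ≠ 0 → ∃ u v : Fin r → ZMod l, Irreducible (hpolyO r s u v)

/-- O4S: `hpolyO` can be irreducible, in two special cases. -/
def O4S : Prop := ∀ r : ℕ, r = 1 ∨ r = 2 → ∀ (l : ℕ) [Fact l.Prime], l = 3 ∨ l = 5 →
  ∀ s : ZMod l, s ≠ 0 → ∃ (t : ZMod l) (x : Fin r → ZMod l), t ≠ 0 ∧
    Irreducible (hpolyO r s (fun j => x j + t * (if (j : ℕ) + 1 = r then 1 else 0))
      (fun j => x j - t * (if (j : ℕ) + 1 = r then 1 else 0)))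

/-- O5: Frobenius elements. -/
def O5 : Prop := ∀ (r s d : ℕ) (x y : Fin r → ℤ) (f : ℤ[X]) (z : Fin (2 * r + 1) → QB),
  0 < s → 0 < d → IsNormO r s d x y f z → GoodI r s d x y →
  ∃ (π : Equiv.Perm (Fin (2 * r + 1))) (σ : QB ≃ₐ[ℚ] QB), (∀ i, σ (z i) = z (π i)) ∧
    ∀ i j, ∃ n : ℕ, (π ^ n) i = j

/-- O6: invariant groups of relations. -/
def O6 : Prop := ∀ g : ℕ, g.Prime → ∀ (R : AddSubgroup (Fin g → ℤ)) (π : Equiv.Perm (Fin g)),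
  (∀ i j, ∃ n : ℕ, (π ^ n) i = j) → (∀ e ∈ R, (fun i => e (π i)) ∈ R) →
  ∀ e ∈ R, (∃ i j, e i ≠ e j) →
    ∃ N : ℤ, N ≠ 0 ∧ ∀ i j, (Pi.single i N - Pi.single j N : Fin g → ℤ) ∈ R

/-- O7: a root which is not supersingular. -/
def O7 : Prop := ∀ (p q g : ℕ) (f : ℤ[X]), p.Prime → p ∣ q → 2 ≤ g → f ∈ weilPolys q g →
  ¬ (p : ℤ) ∣ f.coeff (g + 1) → ∃ z : ℂ, aeval z f = 0 ∧ ∀ M : ℕ, 0 < M → z ^ (2 * M) ≠ (q : ℂ) ^ M

/-- O8: the relations in the generic case. -/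
def O8 : Prop := ∀ (r s d : ℕ) (x y : Fin r → ℤ) (f : ℤ[X]) (z : Fin (2 * r + 1) → QB),
  1 ≤ r → (2 * r + 1).Prime → 1 < s → 0 < d → IsNormO r s d x y f z →
  f ∈ weilPolys (s ^ 2) (2 * r + 1) →
  (∃ p : ℕ, p.Prime ∧ p ∣ s ∧ ¬ (p : ℤ) ∣ f.coeff (2 * r + 2)) → GoodI r s d x y → GenO r s z

/-- O9: irreducibility. -/
def O9 : Prop := ∀ (r s d : ℕ) (x y : Fin r → ℤ) (f : ℤ[X]) (z : Fin (2 * r + 1) → QB),
  1 ≤ r → 1 < s → 0 < d → IsNormO r s d x y f z → f ∈ weilPolys (s ^ 2) (2 * r + 1) →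
  GenO r s z → Irreducible f

/-- O10: the polynomials are of Weil type. -/
def O10 : Prop := ∀ (r s d : ℕ) (x y : Fin r → ℤ) (f : ℤ[X]) (z : Fin (2 * r + 1) → QB),
  1 ≤ r → 1 < s → 0 < d → IsNormO r s d x y f z → f ∈ weilPolys (s ^ 2) (2 * r + 1) →
  GenO r s z → OfOddWeilType (s ^ 2) (2 * r + 1) f

/-- O11L: exotic relations. -/
def O11L : Prop := ∀ (r s : ℕ) (f : ℤ[X]) (z : Fin (2 * r + 1) → QB), 1 ≤ r → 1 < s →
  (∀ i, aeval (z i : ℂ) f = 0) → GenO r s z → ExL (s ^ 2) f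

/-- O11E: exotic classes on the square. -/
def O11E : Prop := ∀ (r s : ℕ) (f : ℤ[X]) (z : Fin (2 * r + 1) → QB), 1 ≤ r → 1 < s →
  (∀ i, aeval (z i : ℂ) f = 0) → GenO r s z → ExoticInCodim (s ^ 2) (2 * r + 1) (f ^ 2)

/-- O12: the relations between the roots in the generic case. -/
def O12 : Prop := ∀ (r s d : ℕ) (x y : Fin r → ℤ) (f : ℤ[X]) (z : Fin (2 * r + 1) → QB),
  1 ≤ r → 1 < s → 0 < d → IsNormO r s d x y f z → f ∈ weilPolys (s ^ 2) (2 * r + 1) →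
  GenO r s z → NoRelM (2 * r + 1) f (s ^ 2)

/-- There are many good parameters. -/
def ManyO (r p : ℕ) [Fact p.Prime] (C : ℝ) : Prop := ∀ b : ℕ, 0 < b →
  C < (p : ℝ) ^ b → ∃ S : Finset (ℕ × (Fin r → ℤ) × (Fin r → ℤ)),
    ((p : ℝ) ^ b) ^ oddOrder (2 * r + 1) ≤ C * (S.card : ℝ) ∧
    (∀ t ∈ S, 0 < t.1 ∧ (∀ w : ℚ_[p], w ^ 2 ≠ -(t.1 : ℚ_[p])) ∧
      SmallO r (p ^ b) t.1 t.2.1 t.2.2 ∧
      (∀ j : Fin r, (j : ℕ) + 1 = r →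
        ¬ (p : ℤ) ∣ t.2.1 j ^ 2 + (t.1 : ℤ) * t.2.2 j ^ 2) ∧
      GoodI r (p ^ b) t.1 t.2.1 t.2.2) ∧
    Set.InjOn (fun t : ℕ × (Fin r → ℤ) × (Fin r → ℤ) => hO r (p ^ b) t.1 t.2.1 t.2.2) S

/-- O14: numbers without `p`-adic square roots. -/
def O14 : Prop := ∀ (p : ℕ) [Fact p.Prime] (d : ℕ),
  ((p = 2 ∧ d % 8 = 3) ∨ (p ≠ 2 ∧ ∀ w : ZMod p, w ^ 2 ≠ -(d : ZMod p))) →
  ∀ w : ℚ_[p], w ^ 2 ≠ -(d : ℚ_[p])

/-- O15a: prime dimensions at least seven. -/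
def O15a : Prop := ∀ r : ℕ, 3 ≤ r → (2 * r + 1).Prime → ∀ (p : ℕ) [Fact p.Prime],
  ∃ C : ℝ, 0 < C ∧ ManyO r p C

/-- O15b: dimensions three and five. -/
def O15b : Prop := ∀ r : ℕ, r = 1 ∨ r = 2 → ∃ C : ℝ, 0 < C ∧ ∀ (p : ℕ) [Fact p.Prime],
  ManyO r p C

/-- O17a: the condition of Honda and Tate for almost ordinary Weil polynomials. -/
def O17a : Prop := ∀ (p : ℕ) [Fact p.Prime] (b g : ℕ) (f : ℤ[X]), 0 < b → 2 ≤ g →
  f ∈ weilPolys (p ^ (2 * b)) g → (p : ℤ) ^ b ∣ f.coeff g → ¬ (p : ℤ) ∣ f.coeff (g + 1) →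
  (∀ w : ℚ_[p], aeval w f ≠ 0) → HondaTate p (2 * b) f

/-- O17b: there are no roots in the field of `p`-adic numbers. -/
def O17b : Prop := ∀ (r s d : ℕ) (x y : Fin r → ℤ) (f : ℤ[X]) (z : Fin (2 * r + 1) → QB)
  (p : ℕ) [Fact p.Prime], 0 < d → IsNormO r s d x y f z → f.Monic → Irreducible f →
  (∀ w : ℚ_[p], w ^ 2 ≠ -(d : ℚ_[p])) → ∀ w : ℚ_[p], aeval w f ≠ 0

/-- O16: the fibres of the norm map are bounded. -/
def O16 : Prop := ∀ (n : ℕ) (f : ℤ[X]), f ≠ 0 → f.natDegree = n →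
  {h : ℂ[X] | h.Monic ∧ h ∣ f.map (Int.castRingHom ℂ)}.Finite ∧
  {h : ℂ[X] | h.Monic ∧ h ∣ f.map (Int.castRingHom ℂ)}.ncard ≤ 2 ^ n

end Pool.Agent.H857.PD
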