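import Pool.Agent.H857.WT.Defs

/-!
# Abelian varieties of odd prime dimension over finite fields: definitions
-/

set_option autoImplicit false

namespace Pool.Agent.H857.PD

open Polynomial Pool.Agent.H857.WT

/-- `A` is of Weil type, where `f` is the characteristic polynomial of the Frobenius endomorphism of
the abelian variety `A` of dimension `g` over the field with `q` elements: there is an imaginary
quadratic field `K` and a factorisation `f = h h̄` over `K` with coprime factors of degree `g`, such
that the square of the constant term of `h` is the product of `q ^ g` and a root of unity. So `K` acts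
on `A`, `H ^ 1 (A)` is a free module of rank `g` over `K ⊗ ℚ_ℓ` on which the Frobenius endomorphism has
the characteristic polynomial `h`, and the tensor squares of its highest exterior power, which lie
in `H ^ (2 g) (A ^ 2)`, consist of Tate classes of codimension `g` over a finite extension. -/
def OfOddWeilType (q g : ℕ) (f : ℤ[X]) : Prop :=
  ∃ (D : ℕ) (h : ℂ[X]), 0 < D ∧ h.Monic ∧ (∀ j, h.coeff j ∈ quadField D) ∧
    f.map (Int.castRingHom ℂ) = h * h.map (starRingEnd ℂ) ∧
    IsCoprime h (h.map (starRingEnd ℂ)) ∧
    ∃ N : ℕ, 0 < N ∧ h.coeff 0 ^ (2 * N) = ((q : ℂ) ^ g) ^ N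

/-- The exponent of `√q` in the number of the exceptional isogeny classes of dimension `g`: `3` for
`g = 3`, `7` for `g = 5` and `(g ^ 2 - 1) / 4` for `g ≥ 7`. -/
def oddOrder (g : ℕ) : ℕ := if g = 3 then 3 else if g = 5 then 7 else (g ^ 2 - 1) / 4

/-- The condition of Honda and Tate for an irreducible polynomial `f` to be the characteristic
polynomial of the Frobenius endomorphism of a simple abelian variety over the field with `p ^ a`
elements: the constant terms of the irreducible factors of `f` over the field of `p`-adic numbers
have absolute values which are powers of `p ^ (-a)` with integral exponents. -/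
def HondaTate (p : ℕ) [Fact p.Prime] (a : ℕ) (f : ℤ[X]) : Prop :=
  ∀ h : ℚ_[p][X], h.Monic → Irreducible h → h ∣ f.map (Int.castRingHom ℚ_[p]) →
    ∃ n : ℕ, ‖h.coeff 0‖ = (((p : ℝ) ^ a)⁻¹) ^ n

end Pool.Agent.H857.PD
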