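import Pool.Agent.H857.PD.Asm
import Pool.Agent.H857.SG.Equiv

/-!
# Abelian varieties of odd prime dimension over finite fields: the final form
-/

set_option autoImplicit false

namespace Pool.Agent.H857.PD

open Module Polynomial Pool.Agent.W521.Descent Pool.Agent.W521.Density Pool.Agent.W521.Count
  Pool.Agent.X297.UB Pool.Agent.H857.PB Pool.Agent.H857.PA Pool.Agent.H857.HK Pool.Agent.H857.EF
  Pool.Agent.H857.WT Pool.Agent.H857.SG

/-- The constants of the lower bounds. -/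
theorem constants (h15a : O15a) (h15b : O15b)
    (hl : ∀ r : ℕ, 1 ≤ r → (2 * r + 1).Prime → ∀ (p : ℕ) [Fact p.Prime] (C : ℝ), 0 < C →
      ManyO r p C → Lower (2 * r + 1) p (C * 2 ^ (2 * (2 * r + 1))))
    (g : ℕ) (hgp : g.Prime) (hg3 : 3 ≤ g) :
    ∃ C : ℝ, 0 < C ∧ ∃ c : ℕ → ℝ, (∀ p, 0 < c p) ∧ (g ≤ 5 → ∀ p, c p ≤ C) ∧
      ∀ (p : ℕ) [Fact p.Prime], Lower g p (c p) := by
  classical
  obtain ⟨r, hr⟩ := hgp.odd_of_ne_two (by omega)
  subst hr
  have hr1 : 1 ≤ r := by omega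
  by_cases h5 : 2 * r + 1 ≤ 5
  · obtain ⟨C, hC, h⟩ := h15b r (by omega)
    have h0 : 0 < C * 2 ^ (2 * (2 * r + 1)) := by positivity
    exact ⟨_, h0, fun _ => C * 2 ^ (2 * (2 * r + 1)), fun _ => h0, fun _ _ => le_rfl,
      fun p _ => hl r hr1 hgp p C hC (h p)⟩
  · have hr3 : 3 ≤ r := by omega
    have h : ∀ (p : ℕ) (hp : p.Prime), ∃ C : ℝ, 0 < C ∧
        @Lower (2 * r + 1) p ⟨hp⟩ C := by
      intro p hp
      haveI : Fact p.Prime := ⟨hp⟩
      obtain ⟨C, hC, h⟩ := h15a r hr3 hgp p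
      exact ⟨_, by positivity, hl r hr1 hgp p C hC h⟩
    refine ⟨1, one_pos, fun p => if hp : p.Prime then (h p hp).choose else 1, fun p => ?_,
      fun h' => absurd h' h5, fun p inst => ?_⟩
    · dsimp only
      split_ifs with hp
      · exact (h p hp).choose_spec.1
      · exact one_pos
    · have hp : p.Prime := Fact.out
      dsimp only
      rw [dif_pos hp]
      exact (h p hp).choose_spec.2

end Pool.Agent.H857.PD
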