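import Pool.Agent.H857.PD.Final
import Pool.Agent.H857.PD.P.P1
import Pool.Agent.H857.PD.P.P2
import Pool.Agent.H857.PD.P.P3
import Pool.Agent.H857.PD.P.P4
import Pool.Agent.H857.PD.P.P6
import Pool.Agent.H857.PD.P.P8a
import Pool.Agent.H857.PD.P.P8
import Pool.Agent.H857.PD.P.P9
import Pool.Agent.H857.PD.P.P10
import Pool.Agent.H857.PD.P.P17
import Pool.Agent.H857.PD.P.P18
import Pool.Agent.H857.PD.P.O1
import Pool.Agent.H857.PD.P.O2
import Pool.Agent.H857.PD.P.O3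
import Pool.Agent.H857.PD.P.O3r
import Pool.Agent.H857.PD.P.O4I
import Pool.Agent.H857.PD.P.O4S
import Pool.Agent.H857.PD.P.O5
import Pool.Agent.H857.PD.P.O6
import Pool.Agent.H857.PD.P.O7
import Pool.Agent.H857.PD.P.O8
import Pool.Agent.H857.PD.P.O9
import Pool.Agent.H857.PD.P.O10
import Pool.Agent.H857.PD.P.O11L
import Pool.Agent.H857.PD.P.O11E
import Pool.Agent.H857.PD.P.O12
import Pool.Agent.H857.PD.P.O14
import Pool.Agent.H857.PD.P.O15a
import Pool.Agent.H857.PD.P.O15b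
import Pool.Agent.H857.PD.P.O16
import Pool.Agent.H857.PD.P.O17a
import Pool.Agent.H857.PD.P.O17b
import Pool.Agent.H857.SG.P.B5
import Pool.Agent.H857.SG.P.B7a
import Pool.Agent.H857.SG.P.B7b
import Pool.Agent.H857.SG.P.B7c
import Pool.Agent.H857.WT.P.W13
import Pool.Agent.H857.WT.P.W14
import Pool.Agent.H857.WT.P.W19
import Pool.Agent.H857.WT.P.W20
import Pool.Agent.H857.EF.P.S3
import Pool.Agent.H857.EF.P.S7
import Pool.Agent.H857.EF.P.S13
import Pool.Agent.H857.EF.P.S17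
import Pool.Agent.H857.EF.P.S18

/-!
# Abelian varieties of odd prime dimension over finite fields: the statements together
-/

set_option autoImplicit false

namespace Pool.Agent.H857.PD

open Pool.Agent.H857.WT Pool.Agent.H857.EF

theorem all_p3 : P3 := H685.PD.p3 H199.PDP2.p2

theorem all_p8 : P8 := H599.PDp8.p8 H277.PDp8a.p8a

theorem all_p9 : P9 := H997.PDp9.p9 H233.EF.s3 H894.EF.s7 H277.PDp8a.p8a H722.PDP10.p10

theorem all_p18 : P18 := H596.PDp18.p18 (H295.WT19.w19 H120.WT20.w20)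

theorem all_o3 : O3 := H747.PDo3.o3 H116.PDO1.o1 H162.PD.o2

theorem all_o8 : O8 := H335.PDo8.o8 H977.PDO5.o5 H721.PDo6.o6 H236.PDo7.o7

theorem all_o15a : O15a := H296.PDO15a.o15a H947.PD.o4i H196.PDO14.o14

theorem all_o15b : O15b := H344.PDo15b.o15b H263.PD.o4s H196.PDO14.o14

theorem all_lower (r : ℕ) (hr : 1 ≤ r) (hg : (2 * r + 1).Prime) (p : ℕ) [Fact p.Prime] (C : ℝ)
    (hC : 0 < C) (h : ManyO r p C) : Lower (2 * r + 1) p (C * 2 ^ (2 * (2 * r + 1))) :=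
  lower all_o3 H494.PDO3.o3n' all_o8 H719.PDo9.o9 H44.PDO10.o10 H591.PD.o11l H548.PD.o11e
    H42.PD12.o12 H686.WT.w13 H297.WT.w14 H370.PDO16.o16 (H628.PD.o17a H494.PDO3.o3r)
    H628.PD.o17b H643.EF.s18 r hr hg p C hC h

/-- The constants. -/
theorem all_constants (g : ℕ) (hgp : g.Prime) (hg3 : 3 ≤ g) :
    ∃ C : ℝ, 0 < C ∧ ∃ c : ℕ → ℝ, (∀ p, 0 < c p) ∧ (g ≤ 5 → ∀ p, c p ≤ C) ∧
      ∀ (p : ℕ) [Fact p.Prime], Lower g p (c p) :=
  constants all_o15a all_o15b (fun r hr hg p _ C hC h => all_lower r hr hg p C hC h) g hgp hg3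

end Pool.Agent.H857.PD
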